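import Mathlib

set_option autoImplicit false

open MeasureTheory Set Filter Topology Complex

namespace Pool.Agent.H26

variable {E : Type*} [NormedAddCommGroup E] [NormedSpace ℂ E] [CompleteSpace E]

/-- the continuous bounded function giving an integrable function in polar coordinates -/
lemma integrableOn_polar (F : ℂ → ℝ → E) (hF : Continuous (fun p : ℝ × ℝ => F (Complex.polarCoord.symm p) p.2))
    (R : ℝ) (hR : ∀ w : ℂ, R < ‖w‖ → ∀ θ, F w θ = 0) :
    IntegrableOn (fun p : ℝ × ℝ => F (Complex.polarCoord.symm p) p.2) (Ioi 0 ×ˢ Ioo (-Real.pi) Real.pi) := by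
  have h1 : IntegrableOn (fun p : ℝ × ℝ => F (Complex.polarCoord.symm p) p.2)
      (Icc 0 R ×ˢ Icc (-Real.pi) Real.pi) := by
    apply ContinuousOn.integrableOn_compact
    · exact isCompact_Icc.prod isCompact_Icc
    · exact hF.continuousOn
  have h2 : IntegrableOn (fun p : ℝ × ℝ => F (Complex.polarCoord.symm p) p.2)
      ((Ioi 0 ×ˢ Ioo (-Real.pi) Real.pi) ∩ (Icc 0 R ×ˢ Icc (-Real.pi) Real.pi)) :=
    h1.mono_set inter_subset_right
  have h3 : IntegrableOn (fun p : ℝ × ℝ => F (Complex.polarCoord.symm p) p.2)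
      ((Ioi 0 ×ˢ Ioo (-Real.pi) Real.pi) \ (Icc 0 R ×ˢ Icc (-Real.pi) Real.pi)) := by
    have hz : EqOn (fun p : ℝ × ℝ => F (Complex.polarCoord.symm p) p.2) (fun _ => 0)
        ((Ioi 0 ×ˢ Ioo (-Real.pi) Real.pi) \ (Icc 0 R ×ˢ Icc (-Real.pi) Real.pi)) := by
      rintro ⟨r, θ⟩ ⟨⟨h0, hθ⟩, hn⟩
      simp only [mem_Ioi, mem_Ioo] at h0 hθ
      have hr : R < r := by
        by_contra hle
        push Not at hle
        exact hn ⟨⟨h0.le, hle⟩, ⟨hθ.1.le, hθ.2.le⟩⟩
      apply hR
      rw [Complex.norm_polarCoord_symm]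
      exact lt_of_lt_of_le hr (le_abs_self _)
    refine (integrableOn_congr_fun hz ?_).2 integrableOn_zero
    exact (measurableSet_Ioi.prod measurableSet_Ioo).diff (measurableSet_Icc.prod measurableSet_Icc)
  have h4 := h2.union h3
  rwa [inter_union_sdiff] at h4

lemma polarSymm_eq (p : ℝ × ℝ) :
    Complex.polarCoord.symm p = (p.1 : ℂ) * Complex.exp (p.2 * I) := by
  rw [Complex.polarCoord_symm_apply, Complex.exp_mul_I]
  simp

/-- Cauchy–Pompeiu at the origin -/
theorem pompeiu_zero (g : ℂ → E) (hg : ContDiff ℝ 1 g) (hc : HasCompactSupport g) :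
    ∫ w : ℂ, w⁻¹ • (fderiv ℝ g w 1 + I • fderiv ℝ g w I) = -(2 * Real.pi : ℂ) • g 0 := by
  obtain ⟨R, hR0, hR⟩ : ∃ R : ℝ, 0 < R ∧ ∀ w : ℂ, R < ‖w‖ → g w = 0 ∧ fderiv ℝ g w = 0 := by
    obtain ⟨R, hR⟩ := hc.isBounded.subset_closedBall 0
    refine ⟨max R 1, by positivity, fun w hw => ?_⟩
    have hw' : w ∉ tsupport g := by
      intro h
      have := hR h
      rw [mem_closedBall_zero_iff] at this
      exact absurd hw (not_lt.2 (this.trans (le_max_left _ _)))
    refine ⟨image_eq_zero_of_notMem_tsupport hw', ?_⟩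
    have : w ∉ tsupport (fderiv ℝ g) := fun h => hw' (tsupport_fderiv_subset ℝ h)
    exact image_eq_zero_of_notMem_tsupport this
  have hfd : Continuous (fderiv ℝ g) := hg.continuous_fderiv (by norm_num)
  have hdiff : Differentiable ℝ g := hg.differentiable (by norm_num)
  -- two pieces
  set A : ℝ × ℝ → E := fun p => fderiv ℝ g (Complex.polarCoord.symm p) (Complex.exp (p.2 * I)) with hA
  set B : ℝ × ℝ → E := fun p => fderiv ℝ g (Complex.polarCoord.symm p) (I * Complex.exp (p.2 * I)) with hB
  have hsymm : Continuous (fun p : ℝ × ℝ => (Complex.polarCoord.symm p : ℂ)) := by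
    simp_rw [polarSymm_eq]
    fun_prop
  have hAc : Continuous A := by
    apply Continuous.clm_apply (hfd.comp hsymm)
    fun_prop
  have hBc : Continuous B := by
    apply Continuous.clm_apply (hfd.comp hsymm)
    fun_prop
  have hAi : IntegrableOn A (Ioi 0 ×ˢ Ioo (-Real.pi) Real.pi) :=
    integrableOn_polar (fun w θ => fderiv ℝ g w (Complex.exp (θ * I))) hAc R
      (fun w hw θ => by simp [(hR w hw).2])
  have hBi : IntegrableOn B (Ioi 0 ×ˢ Ioo (-Real.pi) Real.pi) :=
    integrableOn_polar (fun w θ => fderiv ℝ g w (I * Complex.exp (θ * I))) hBc R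
      (fun w hw θ => by simp [(hR w hw).2])
  have key : ∫ w : ℂ, w⁻¹ • (fderiv ℝ g w 1 + I • fderiv ℝ g w I)
      = ∫ p in Ioi 0 ×ˢ Ioo (-Real.pi) Real.pi, (A p + I • B p) := by
    rw [← Complex.integral_comp_polarCoord_symm, polarCoord_target]
    apply setIntegral_congr_fun (measurableSet_Ioi.prod measurableSet_Ioo)
    rintro ⟨r, θ⟩ ⟨h0, hθ⟩
    simp only [mem_Ioi] at h0
    simp only [hA, hB, polarSymm_eq]
    set L := fderiv ℝ g ((r : ℂ) * Complex.exp (θ * I)) with hL
    have e1 : L (Complex.exp (θ * I)) = (Real.cos θ : ℂ) • L 1 + (Real.sin θ : ℂ) • L I := by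
      have : Complex.exp (θ * I) = (Real.cos θ : ℝ) • (1 : ℂ) + (Real.sin θ : ℝ) • I := by
        rw [Complex.exp_mul_I]; simp
      rw [this, map_add, map_smul, map_smul]
      rw [← Complex.coe_smul (Real.cos θ), ← Complex.coe_smul (Real.sin θ)]
    have e2 : L (I * Complex.exp (θ * I)) = -(Real.sin θ : ℂ) • L 1 + (Real.cos θ : ℂ) • L I := by
      have : I * Complex.exp (θ * I) = (-Real.sin θ : ℝ) • (1 : ℂ) + (Real.cos θ : ℝ) • I := by
        rw [Complex.exp_mul_I]
        simp
        ring_nf
        rw [I_sq]; ring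
      rw [this, map_add, map_smul, map_smul]
      rw [← Complex.coe_smul (-Real.sin θ), ← Complex.coe_smul (Real.cos θ)]
      simp
    rw [e1, e2]
    rw [← Complex.coe_smul r, smul_smul]
    have hne : (r : ℂ) ≠ 0 := by exact_mod_cast h0.ne'
    have hexp : (r : ℂ) * ((r : ℂ) * Complex.exp (θ * I))⁻¹ = Real.cos θ - Real.sin θ * I := by
      rw [mul_inv, ← mul_assoc, mul_inv_cancel₀ hne, one_mul, ← Complex.exp_neg,
        show -((θ : ℂ) * I) = ((-θ : ℝ) : ℂ) * I by push_cast; ring, Complex.exp_mul_I]
      simp [Complex.ofReal_cos, Complex.ofReal_sin]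
      ring
    rw [hexp]
    generalize L 1 = a
    generalize L I = b
    generalize (Real.cos θ : ℂ) = c
    generalize (Real.sin θ : ℂ) = s
    have hI : (c - s * I) • (a + I • b) = (c • a + s • b) + I • (-s • a + c • b)
        + ((-(s * (I * I)) - s) • b) := by module
    rw [hI, I_mul_I]
    simp
  rw [key]
  have hsplit : ∫ p in Ioi 0 ×ˢ Ioo (-Real.pi) Real.pi, (A p + I • B p)
      = (∫ p in Ioi 0 ×ˢ Ioo (-Real.pi) Real.pi, A p) + I • ∫ p in Ioi 0 ×ˢ Ioo (-Real.pi) Real.pi, B p := by
    rw [← integral_smul]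
    exact integral_add hAi (hBi.smul I)
  rw [hsplit]
  have hAval : ∫ p in Ioi 0 ×ˢ Ioo (-Real.pi) Real.pi, A p = -(2 * Real.pi : ℂ) • g 0 := by
    rw [Measure.volume_eq_prod, ← Measure.prod_restrict, integral_prod_symm]
    · have hin : ∀ θ : ℝ, ∫ r in Ioi (0:ℝ), A (r, θ) = - g 0 := by
        intro θ
        have h := integral_Ioi_of_hasDerivAt_of_tendsto (f := fun r : ℝ => g ((r : ℂ) * Complex.exp (θ * I)))
          (f' := fun r => A (r, θ)) (a := 0) (m := 0) ?_ ?_ ?_ ?_
        · rw [h]; simp
        · apply Continuous.continuousWithinAt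
          exact hdiff.continuous.comp (by fun_prop)
        · intro r hr
          have h1 : HasDerivAt (fun r : ℝ => (r : ℂ) * Complex.exp (θ * I)) (Complex.exp (θ * I)) r := by
            simpa using (Complex.ofRealCLM.hasDerivAt (x := r)).mul_const (Complex.exp (θ * I))
          have h2 := (hdiff ((r : ℂ) * Complex.exp (θ * I))).hasFDerivAt.comp_hasDerivAt r h1
          simp only [hA, polarSymm_eq]
          exact h2
        · have : IntegrableOn (fun r => A (r, θ)) (Icc 0 R) :=
            (hAc.comp (by fun_prop : Continuous fun r : ℝ => (r, θ))).continuousOn.integrableOn_compact isCompact_Icc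
          have h3 : IntegrableOn (fun r => A (r, θ)) (Ioi R) := by
            refine (integrableOn_congr_fun (g := fun _ => 0) ?_ measurableSet_Ioi).2 integrableOn_zero
            intro r hr
            simp only [hA, polarSymm_eq]
            rw [(hR _ ?_).2]; · simp
            rw [norm_mul, Complex.norm_exp_ofReal_mul_I, mul_one, Complex.norm_real]
            exact lt_of_lt_of_le hr (le_abs_self _)
          refine (this.union h3).mono_set ?_
          intro r hr
          by_cases h : r ≤ R
          · left; exact ⟨(mem_Ioi.1 hr).le, h⟩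
          · right; exact not_le.1 h
        · apply tendsto_const_nhds.congr'
          filter_upwards [eventually_gt_atTop R] with r hr
          rw [(hR _ ?_).1]
          rw [norm_mul, Complex.norm_exp_ofReal_mul_I, mul_one, Complex.norm_real]
          exact lt_of_lt_of_le hr (le_abs_self _)
      simp_rw [hin]
      rw [setIntegral_const]
      simp only [Real.volume_real_Ioo, sub_neg_eq_add]
      rw [max_eq_left (by positivity), ← Complex.coe_smul]
      push_cast
      module
    · have := hAi
      rwa [IntegrableOn, Measure.volume_eq_prod, ← Measure.prod_restrict] at this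
  have hBval : ∫ p in Ioi 0 ×ˢ Ioo (-Real.pi) Real.pi, B p = 0 := by
    rw [Measure.volume_eq_prod, ← Measure.prod_restrict, integral_prod]
    · have hin : ∀ r ∈ Ioi (0:ℝ), ∫ θ in Ioo (-Real.pi) Real.pi, B (r, θ) = 0 := by
        intro r hr
        rw [← integral_Ioc_eq_integral_Ioo, ← intervalIntegral.integral_of_le (by linarith [Real.pi_pos])]
        have hne : (r : ℝ) ≠ 0 := ne_of_gt hr
        have hd : ∀ θ ∈ uIcc (-Real.pi) Real.pi, HasDerivAt
            (fun θ : ℝ => (r⁻¹ : ℝ) • g ((r : ℂ) * Complex.exp (θ * I))) (B (r, θ)) θ := by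
          intro θ _
          have h1 : HasDerivAt (fun θ : ℝ => (r : ℂ) * Complex.exp (θ * I))
              ((r : ℂ) * (Complex.exp (θ * I) * I)) θ := by
            have h0 : HasDerivAt (fun θ : ℝ => (θ : ℂ) * I) I θ := by
              simpa using (Complex.ofRealCLM.hasDerivAt (x := θ)).mul_const I
            exact (h0.cexp).const_mul _
          have h2 := ((hdiff ((r : ℂ) * Complex.exp (θ * I))).hasFDerivAt.comp_hasDerivAt θ h1).const_smul (r⁻¹ : ℝ)
          have h3 : B (r, θ) = r⁻¹ • (fderiv ℝ g ((r : ℂ) * Complex.exp (θ * I)))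
              ((r : ℂ) * (Complex.exp (θ * I) * I)) := by
            simp only [hB, polarSymm_eq]
            rw [← map_smul]
            congr 1
            rw [Complex.real_smul]
            have hne' : (r : ℂ) ≠ 0 := by exact_mod_cast hne
            push_cast
            rw [← mul_assoc, inv_mul_cancel₀ hne', one_mul, mul_comm]
          rw [h3]
          exact h2
        rw [intervalIntegral.integral_eq_sub_of_hasDerivAt hd]
        · have : Complex.exp ((Real.pi : ℝ) * I) = Complex.exp (((-Real.pi : ℝ) : ℂ) * I) := by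
            rw [Complex.exp_pi_mul_I]
            push_cast
            rw [neg_mul, Complex.exp_neg, Complex.exp_pi_mul_I]
            norm_num
          rw [this]; simp
        · exact (hBc.comp (by fun_prop : Continuous fun θ : ℝ => (r, θ))).intervalIntegrable _ _
      rw [setIntegral_congr_fun measurableSet_Ioi hin]
      exact integral_zero _ _
    · have := hBi
      rwa [IntegrableOn, Measure.volume_eq_prod, ← Measure.prod_restrict] at this
  rw [hAval, hBval]
  simp

/-- Cauchy–Pompeiu formula for compactly supported `C¹` functions. -/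
theorem pompeiu (g : ℂ → E) (hg : ContDiff ℝ 1 g) (hc : HasCompactSupport g) (z : ℂ) :
    ∫ w : ℂ, (w - z)⁻¹ • (fderiv ℝ g w 1 + I • fderiv ℝ g w I) = -(2 * Real.pi : ℂ) • g z := by
  have h := pompeiu_zero (fun w => g (w + z)) (hg.comp (by fun_prop)) ?_
  · simp only [zero_add] at h
    rw [← h]
    rw [← integral_add_right_eq_self (μ := volume) _ z]
    apply integral_congr_ae
    refine Eventually.of_forall fun w => ?_
    simp only [add_sub_cancel_right]
    have : fderiv ℝ (fun w => g (w + z)) w = fderiv ℝ g (w + z) := fderiv_comp_add_right z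
    rw [this]
  · exact hc.comp_homeomorph (Homeomorph.addRight z)

end Pool.Agent.H26
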